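import Pool.Agent.Lob.All

/-!
# Lobsters of small maximum degree and unit disk graphs

A lobster is a tree with a path (a spine) such that every vertex has distance at most 2 from the path. The question is
which lobsters are unit disk graphs.

Every lobster of maximum degree at most 3 is a unit disk graph, and this is not true for maximum degree 4. More
precisely, every lobster in which all degrees are at most 4 and every vertex has at most 3 neighbours of degree at least
2 is a unit disk graph.

Proof. Choose a longest spine. Its ends have no further neighbours, and the children of the vertices next to the ends are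
leaves. So every spine vertex has at most two children, and at most one of them has children itself, at most three. All
such lobsters are induced subgraphs of one periodic pattern with the centres (`σ = (-1) ^ i`) `(2 i, 0)` for the spine,
`(2 i, 1.9 σ)` and `(2 i, - 0.15 σ)` for the two children, and `(2 i + 1, 2.2 σ)`, `(2 i - 0.1, 3.88 σ)`, `(2 i - 1, 1.9
σ)` for the children of the first one. For the second part let the spine have 200 vertices with two children each, and let
each child have three children. There is an independent set of 1300 vertices. The disks of radius 1 around their centres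
are disjoint and contained in the union of the disks of radius 5 around the centres of the spine vertices. Its area is at
most `25 π + 20 · 199 < 1300 π`, since the distance of two consecutive centres is at most 2.
-/

set_option autoImplicit false

namespace Pool.Agent.Results.MP_044a76_lc.DegreeThreshold

/-- Unit disk graph: closed disks of radius 1 in the plane `ℂ`, two vertices are adjacent iff their disks meet. -/
def IsUnitDiskGraph {V : Type} (G : SimpleGraph V) : Prop :=
  ∃ c : V → ℂ, ∀ u v : V, u ≠ v →
    (G.Adj u v ↔ (Metric.closedBall (c u) 1 ∩ Metric.closedBall (c v) 1).Nonempty)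

/-- `s 0, …, s n` is a path of `G` and every vertex has distance at most 2 from a vertex of this path. -/
def IsSpine {V : Type} (G : SimpleGraph V) (n : ℕ) (s : ℕ → V) : Prop :=
  (∀ i j : ℕ, i ≤ n → j ≤ n → s i = s j → i = j) ∧ (∀ i < n, G.Adj (s i) (s (i + 1))) ∧
    ∀ v : V, ∃ i ≤ n, v = s i ∨ G.Adj v (s i) ∨ ∃ w, G.Adj v w ∧ G.Adj w (s i)

/-- A lobster: a tree with a path such that every vertex has distance at most 2 from it. -/
def IsLobster {V : Type} (G : SimpleGraph V) : Prop :=
  G.IsTree ∧ ∃ (n : ℕ) (s : ℕ → V), IsSpine G n s

/-- The degree of `v` is `(G.neighborSet v).ncard`. -/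
theorem result :
    -- all degrees at most 4, at most 3 neighbours of degree at least 2
    (∀ (V : Type) [Finite V] (G : SimpleGraph V), IsLobster G → (∀ v, (G.neighborSet v).ncard ≤ 4) →
      (∀ v, {w | G.Adj v w ∧ 2 ≤ (G.neighborSet w).ncard}.ncard ≤ 3) → IsUnitDiskGraph G) ∧
    -- in particular maximum degree at most 3
    (∀ (V : Type) [Finite V] (G : SimpleGraph V), IsLobster G → (∀ v, (G.neighborSet v).ncard ≤ 3) →
      IsUnitDiskGraph G) ∧
    -- maximum degree 4 is not enough
    ∃ (V : Type) (_ : Finite V) (G : SimpleGraph V), IsLobster G ∧ (∀ v, (G.neighborSet v).ncard ≤ 4) ∧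
      ¬ IsUnitDiskGraph G :=
  ⟨Pool.Agent.Lob.main_thm.1, fun V _ G hG h3 => Pool.Agent.Lob.main_thm.1 V G hG (fun v => (h3 v).trans (by norm_num))
    fun v => (Set.ncard_le_ncard (fun _ hw => hw.1) (Set.toFinite _)).trans (h3 v), Pool.Agent.Lob.main_thm.2.2⟩

end Pool.Agent.Results.MP_044a76_lc.DegreeThreshold
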