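import Pool.Agent.Lob.All

/-!
# Independent sets of lobsters which are unit disk graphs

Let `G` be a unit disk graph with a path `s 0, …, s n` such that every vertex has distance at most 2 from the path, for
example a lobster which is a unit disk graph. Then every independent set `I` satisfies `π |I| ≤ 25 π + 20 n`.

Proof. The disks of the vertices in `I` are disjoint, and they are contained in the union of the disks of radius 5 around
the centres of the `s i`. The distance of consecutive centres is at most 2, and the area of the part of a disk of radius 5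
outside another one is at most 10 times the distance of the centres.
-/

set_option autoImplicit false

namespace Pool.Agent.Results.MP_044a76_lc.IndependenceBound

/-- Unit disk graph: closed disks of radius 1 in the plane `ℂ`, two vertices are adjacent iff their disks meet. -/
def IsUnitDiskGraph {V : Type} (G : SimpleGraph V) : Prop :=
  ∃ c : V → ℂ, ∀ u v : V, u ≠ v →
    (G.Adj u v ↔ (Metric.closedBall (c u) 1 ∩ Metric.closedBall (c v) 1).Nonempty)

/-- `s 0, …, s n` is a path of `G` and every vertex has distance at most 2 from a vertex of this path. -/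
def IsSpine {V : Type} (G : SimpleGraph V) (n : ℕ) (s : ℕ → V) : Prop :=
  (∀ i j : ℕ, i ≤ n → j ≤ n → s i = s j → i = j) ∧ (∀ i < n, G.Adj (s i) (s (i + 1))) ∧
    ∀ v : V, ∃ i ≤ n, v = s i ∨ G.Adj v (s i) ∨ ∃ w, G.Adj v w ∧ G.Adj w (s i)

theorem result (V : Type) (G : SimpleGraph V) (n : ℕ) (s : ℕ → V) (hs : IsSpine G n s) (hG : IsUnitDiskGraph G)
    (I : Finset V) (hI : ∀ u ∈ I, ∀ v ∈ I, ¬ G.Adj u v) : Real.pi * I.card ≤ 25 * Real.pi + 20 * n :=
  Pool.Agent.Lob.main_thm.2.1 V G n s hs hG I hI

end Pool.Agent.Results.MP_044a76_lc.IndependenceBound
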